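import Pool.Agent.Helper28.RS.Amal

/-!
# MP_7ef5a1_co: a vertex of minimum degree on no 4-cycle: the combinatorial core of freeness
-/

set_option autoImplicit false
open Classical

namespace Pool.Agent.Helper28.R4

open Pool.Agent.Helper28.RS (TF)

variable {m : ℕ}

/-- at distance at least 3 from `v` -/
def Far3 (H : SimpleGraph (Fin m)) (v u : Fin m) : Prop :=
  u ≠ v ∧ ¬ H.Adj v u ∧ ∀ y, H.Adj v y → ¬ H.Adj u y

section core

variable {L : Type} [Fintype L] {H : SimpleGraph (Fin m)} {v : Fin m}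
  {S : Fin m → Prop} {E : L → Fin m → Prop} {φ : L → Fin m → Fin m}

/-- the domain of `φ T` -/
def Dm (H : SimpleGraph (Fin m)) (S : Fin m → Prop) (E : L → Fin m → Prop) (T : L) (u : Fin m) :
    Prop := E T u ∨ (S u ∧ ∃ x, E T x ∧ H.Adj u x)

theorem no4_core (htf : TF H)
    (h4 : ∀ y y' z, H.Adj v y → H.Adj v y' → H.Adj z y → H.Adj z y' → y ≠ y' → z = v)
    (hK : ∀ x b, ¬ ∀ a, H.Adj x a → a = b ∨ Far3 H v a)
    (hSE : ∀ u, S u ∨ ∃ T, E T u) (hSE' : ∀ T u, E T u → ¬ S u)
    (hEE : ∀ T T' u, E T u → E T' u → T = T')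
    (hSS : ∀ u u', S u → S u' → ¬ H.Adj u u')
    (hE1 : ∀ T u u', E T u → H.Adj u u' → E T u' ∨ S u')
    (hφ1 : ∀ T u, E T u → φ T u ≠ v ∧ ¬ H.Adj v (φ T u))
    (hφ2 : ∀ T u u', E T u → H.Adj u u' → H.Adj (φ T u) (φ T u'))
    (hφ3 : ∀ T u s, E T u → H.Adj u s → S s → H.Adj v (φ T s))
    (hinj : ∀ T u u', Dm H S E T u → Dm H S E T u' → φ T u = φ T u' → u = u')
    (hone : ∀ T, ¬ ∀ u, Dm H S E T u) : False := by
  -- (a) a vertex outside `S` has at most one neighbour in `S`
  have ha : ∀ x s s', ¬ S x → S s → S s' → H.Adj x s → H.Adj x s' → s = s' := by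
    intro x s s' hx hs hs' h1 h2
    obtain ⟨T, hT⟩ := (hSE x).resolve_left hx
    by_contra hne
    refine (hφ1 T x hT).1 (h4 (φ T s) (φ T s') (φ T x) (hφ3 T x s hT h1 hs)
      (hφ3 T x s' hT h2 hs') (hφ2 T x s hT h1) (hφ2 T x s' hT h2) ?_)
    intro h
    exact hne (hinj T s s' (Or.inr ⟨hs, x, hT, h1.symm⟩) (Or.inr ⟨hs', x, hT, h2.symm⟩) h)
  -- the only neighbour in `S`
  have hb : ∀ x, ¬ S x → ∃ b, ∀ a, S a → H.Adj x a → a = b := by
    intro x hx
    by_cases h : ∃ s, S s ∧ H.Adj x s
    · obtain ⟨s, hs, hxs⟩ := h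
      exact ⟨s, fun a ha' hxa => ha x a s hx ha' hs hxa hxs⟩
    · refine ⟨x, fun a ha' hxa => ?_⟩
      exact absurd ⟨a, ha', hxa⟩ h
  -- every vertex has a neighbour
  have hnb : ∀ x, ∃ a, H.Adj x a := by
    intro x
    by_contra h
    push Not at h
    exact hK x x fun a ha' => absurd ha' (h a)
  -- (b) `v` lies in `S`
  have hv : S v := by
    by_contra hvS
    obtain ⟨T0, hT0⟩ := (hSE v).resolve_left hvS
    obtain ⟨z, T, hzT, hTT⟩ : ∃ z T, E T z ∧ T ≠ T0 := by
      by_contra hcon
      push Not at hcon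
      apply hone T0
      intro u
      rcases hSE u with hu | ⟨T, hu⟩
      · obtain ⟨x, hx⟩ := hnb u
        have hxS : ¬ S x := fun h => hSS u x hu h hx
        obtain ⟨T, hxT⟩ := (hSE x).resolve_left hxS
        have := hcon x T hxT
        subst this
        exact Or.inr ⟨hu, x, hxT, hx⟩
      · have := hcon u T hu
        subst this
        exact Or.inl hu
    -- vertices of `E T` are in `Far3`, unless they have a neighbour in `N(v)` and in `S`
    have hfar : ∀ a, E T a → (∀ y, H.Adj v y → S y → ¬ H.Adj a y) → Far3 H v a := by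
      intro a haT hay
      refine ⟨?_, ?_, ?_⟩
      · intro h
        rw [h] at haT
        exact hTT (hEE T T0 v haT hT0)
      · intro h
        rcases hE1 T0 v a hT0 h with h1 | h1
        · exact hTT (hEE T T0 a haT h1)
        · exact hSE' T a haT h1
      · intro y hy hya
        rcases hE1 T0 v y hT0 hy with h1 | h1
        · rcases hE1 T0 y a h1 hya.symm with h2 | h2
          · exact hTT (hEE T T0 a haT h2)
          · exact hSE' T a haT h2
        · exact hay y hy h1 hya
    by_cases hc : ∃ z y, E T z ∧ H.Adj v y ∧ S y ∧ H.Adj z y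
    · obtain ⟨z, y, hz, hvy, hyS, hzy⟩ := hc
      apply hK z y
      intro a hza
      by_cases hay : a = y
      · exact Or.inl hay
      · right
        have haS : ¬ S a := fun h => hay (ha z a y (hSE' T z hz) h hyS hza hzy)
        have haT : E T a := (hE1 T z a hz hza).resolve_right haS
        refine hfar a haT ?_
        intro y' hvy' hy'S hay'
        have : y' = y := ha v y' y hvS hy'S hyS hvy' hvy
        rw [this] at hay'
        exact htf a z y hza.symm hzy hay'
    · push Not at hc
      obtain ⟨b, hb'⟩ := hb z (hSE' T z hzT)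
      apply hK z b
      intro a hza
      rcases hE1 T z a hzT hza with h1 | h1
      · exact Or.inr (hfar a h1 fun y hy hyS hay => hc a y h1 hy hyS hay)
      · exact Or.inl (hb' a h1 hza)
  -- (c)
  have hY : ∀ y, H.Adj v y → ¬ S y := fun y hy h => hSS v y hv h hy
  have hS' : ∀ s, S s → s ≠ v → Far3 H v s := by
    intro s hs hsv
    refine ⟨hsv, hSS v s hv hs, ?_⟩
    intro y hy hsy
    exact hsv (ha y s v (hY y hy) hs hv hsy.symm hy.symm)
  have hYT : ∀ T, (∃ z, E T z) → ∃ y, H.Adj v y ∧ E T y := by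
    rintro T ⟨z, hz⟩
    by_contra hcon
    push Not at hcon
    obtain ⟨b, hb'⟩ := hb z (hSE' T z hz)
    apply hK z b
    intro a hza
    rcases hE1 T z a hz hza with h1 | h1
    · right
      refine ⟨?_, ?_, ?_⟩
      · intro h
        rw [h] at h1
        exact hSE' T v h1 hv
      · intro h
        exact hcon a h h1
      · intro y hy hay
        rcases hE1 T a y h1 hay with h2 | h2
        · exact hcon y hy h2
        · exact hY y hy h2
    · exact Or.inl (hb' a h1 hza)
  have hDv : ∀ T, (∃ z, E T z) → Dm H S E T v := by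
    intro T hT
    obtain ⟨y, hy, hyT⟩ := hYT T hT
    exact Or.inr ⟨hv, y, hyT, hy⟩
  have hφv : ∀ T, (∃ z, E T z) → H.Adj v (φ T v) := by
    intro T hT
    obtain ⟨y, hy, hyT⟩ := hYT T hT
    exact hφ3 T y v hyT hy.symm hv
  -- an image of a vertex with a neighbour in `S` is not in `S`
  have hno : ∀ T x s, E T x → H.Adj x s → S s → ¬ S (φ T x) := by
    intro T x s hx hxs hs hcon
    have h1 := hS' (φ T x) hcon (hφ1 T x hx).1
    exact h1.2.2 (φ T s) (hφ3 T x s hx hxs hs) (hφ2 T x s hx hxs)
  -- (d)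
  have hd : ∀ T, (∃ z, E T z) → ¬ E T (φ T v) := by
    intro T hT hcon
    have hseq : ∀ i : ℕ, E T ((φ T)^[i + 1] v) ∧ H.Adj ((φ T)^[i] v) ((φ T)^[i + 1] v) := by
      intro i
      induction i with
      | zero => exact ⟨hcon, hφv T hT⟩
      | succ i ih =>
        obtain ⟨h1, h2⟩ := ih
        have h3 : H.Adj ((φ T)^[i + 1] v) ((φ T)^[i + 1 + 1] v) := by
          have h4' := hφ2 T _ _ h1 h2.symm
          rw [← Function.iterate_succ_apply' (φ T) (i + 1) v,
            ← Function.iterate_succ_apply' (φ T) i v] at h4'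
          exact h4'.symm
        refine ⟨?_, h3⟩
        rcases hE1 T _ _ h1 h3 with h5 | h5
        · exact h5
        · have h6 := hno T _ _ h1 h3 h5
          rw [← Function.iterate_succ_apply' (φ T) (i + 1) v] at h6
          exact absurd h5 h6
    have hD : ∀ i : ℕ, Dm H S E T ((φ T)^[i] v) := by
      intro i
      cases i with
      | zero => exact hDv T hT
      | succ i => exact Or.inl (hseq i).1
    have hne : ∀ i j : ℕ, i < j → (φ T)^[i] v ≠ (φ T)^[j] v := by
      intro i
      induction i with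
      | zero =>
        intro j hj h
        obtain ⟨k, rfl⟩ : ∃ k, j = k + 1 := ⟨j - 1, by omega⟩
        have h1 := (hseq k).1
        rw [← h] at h1
        exact hSE' T v h1 hv
      | succ i ih =>
        intro j hj h
        obtain ⟨k, rfl⟩ : ∃ k, j = k + 1 := ⟨j - 1, by omega⟩
        rw [Function.iterate_succ_apply' (φ T) i v, Function.iterate_succ_apply' (φ T) k v] at h
        exact ih k (by omega) (hinj T _ _ (hD i) (hD k) h)
    have hinj' : Function.Injective (fun i : ℕ => (φ T)^[i] v) := by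
      intro i j h
      rcases lt_trichotomy i j with h1 | h1 | h1
      · exact absurd h (hne i j h1)
      · exact h1
      · exact absurd h.symm (hne j i h1)
    exact not_injective_infinite_finite _ hinj'
  -- the leaf `τ T`
  have hτ : ∀ T, (∃ z, E T z) → ∃ T', E T' (φ T v) ∧ T' ≠ T := by
    intro T hT
    obtain ⟨T', hT'⟩ := (hSE (φ T v)).resolve_left (hY _ (hφv T hT))
    exact ⟨T', hT', fun h => hd T hT (h ▸ hT')⟩
  -- (e) every vertex of `E T` is mapped into `S` or into `E (τ T)`
  have hG : ∀ T T', (∃ z, E T z) → E T' (φ T v) → ∀ x, E T x → S (φ T x) ∨ E T' (φ T x) := by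
    intro T T' hT hT' x0 hx0
    by_contra hcon0
    rw [not_or] at hcon0
    -- vertices mapped elsewhere are far from `v`
    have hfar : ∀ x, E T x → ¬ S (φ T x) → ¬ E T' (φ T x) → Far3 H v x := by
      intro x hx h1 h2
      refine ⟨?_, ?_, ?_⟩
      · intro h
        rw [h] at hx
        exact hSE' T v hx hv
      · intro h
        rcases hE1 T' _ _ hT' (hφ2 T x v hx h.symm).symm with h3 | h3
        · exact h2 h3
        · exact h1 h3
      · intro y hy hxy
        have hyT : E T y := (hE1 T x y hx hxy).resolve_right (hY y hy)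
        have h3 := hφ2 T y v hyT hy.symm
        have h4' := hφ2 T x y hx hxy
        rcases hE1 T' _ _ hT' h3.symm with h5 | h5
        · rcases hE1 T' _ _ h5 h4'.symm with h6 | h6
          · exact h2 h6
          · exact h1 h6
        · exact (hS' _ h5 (hφ1 T y hyT).1).2.2 (φ T v) (hφv T hT) h3
    have hxfar := hfar x0 hx0 hcon0.1 hcon0.2
    obtain ⟨b, hb'⟩ : ∃ b, ∀ a, E T a → H.Adj x0 a → S (φ T a) → a = b := by
      by_cases h : ∃ a, E T a ∧ H.Adj x0 a ∧ S (φ T a)
      · obtain ⟨a, h1, h2, h3⟩ := h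
        refine ⟨a, fun a' h1' h2' h3' => ?_⟩
        apply hinj T a' a (Or.inl h1') (Or.inl h1)
        exact ha (φ T x0) _ _ hcon0.1 h3' h3 (hφ2 T x0 a' hx0 h2') (hφ2 T x0 a hx0 h2)
      · exact ⟨x0, fun a h1 h2 h3 => absurd ⟨a, h1, h2, h3⟩ h⟩
    apply hK x0 b
    intro a hxa
    rcases hE1 T x0 a hx0 hxa with h1 | h1
    · by_cases h2 : S (φ T a)
      · exact Or.inl (hb' a h1 hxa h2)
      · right
        apply hfar a h1 h2
        intro h3
        rcases hE1 T' _ _ h3 (hφ2 T x0 a hx0 hxa).symm with h4' | h4'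
        · exact hcon0.2 h4'
        · exact hcon0.1 h4'
    · right
      apply hS' a h1
      intro h
      rw [h] at hxa
      exact hxfar.2.1 hxa.symm
  -- (f) counting
  let e : L → Finset (Fin m) := fun T => Finset.univ.filter (fun u => E T u)
  let k : L → Finset (Fin m) := fun T => Finset.univ.filter (fun u => E T u ∧ H.Adj v u)
  let s : L → Finset (Fin m) := fun T => Finset.univ.filter (fun u => S u ∧ ∃ x, E T x ∧ H.Adj u x)
  have hf1 : ∀ T T', (∃ z, E T z) → E T' (φ T v) → (s T).card ≤ (k T').card := by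
    intro T T' hT hT'
    refine Finset.card_le_card_of_injOn (φ T) ?_ ?_
    · intro u hu
      have hu' : S u ∧ ∃ x, E T x ∧ H.Adj u x := by simpa [s] using hu
      obtain ⟨huS, x, hx, hux⟩ := hu'
      have h1 : H.Adj v (φ T u) := hφ3 T x u hx hux.symm huS
      have h2 : ¬ S (φ T x) := hno T x u hx hux.symm huS
      have h3 : E T' (φ T x) := (hG T T' hT hT' x hx).resolve_left h2
      have h4' : E T' (φ T u) :=
        (hE1 T' _ _ h3 (hφ2 T x u hx hux.symm)).resolve_right (hY _ h1)
      simp [k, h1, h4']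
    · intro u hu u' hu' h
      have h1 : S u ∧ ∃ x, E T x ∧ H.Adj u x := by simpa [s] using hu
      have h2 : S u' ∧ ∃ x, E T x ∧ H.Adj u' x := by simpa [s] using hu'
      exact hinj T u u' (Or.inr h1) (Or.inr h2) h
  have hf2 : ∀ T T', (∃ z, E T z) → E T' (φ T v) →
      ((e T).filter (fun x => S (φ T x))).card + 1 ≤ (s T').card := by
    intro T T' hT hT'
    have hvs : v ∈ s T' := by
      have := hYT T' ⟨_, hT'⟩
      obtain ⟨y, hy, hyT⟩ := this
      simp only [s, Finset.mem_filter, Finset.mem_univ, true_and]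
      exact ⟨hv, y, hyT, hy⟩
    have h0 : ((e T).filter (fun x => S (φ T x))).card ≤ ((s T').erase v).card := by
      refine Finset.card_le_card_of_injOn (φ T) ?_ ?_
      · intro x hx
        have hx' : E T x ∧ S (φ T x) := by simpa [e] using hx
        obtain ⟨hxT, hxS⟩ := hx'
        obtain ⟨a, hxa⟩ := hnb x
        have haT : E T a := by
          rcases hE1 T x a hxT hxa with h | h
          · exact h
          · exact absurd hxS (hno T x a hxT hxa h)
        have h1 := hφ2 T x a hxT hxa
        have haS : ¬ S (φ T a) := fun h => hSS _ _ hxS h h1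
        have haT' := (hG T T' hT hT' a haT).resolve_left haS
        rw [Finset.mem_coe, Finset.mem_erase]
        refine ⟨(hφ1 T x hxT).1, ?_⟩
        simp only [s, Finset.mem_filter, Finset.mem_univ, true_and]
        exact ⟨hxS, φ T a, haT', h1⟩
      · intro x hx x' hx' h
        have h1 : E T x ∧ S (φ T x) := by simpa [e] using hx
        have h2 : E T x' ∧ S (φ T x') := by simpa [e] using hx'
        exact hinj T x x' (Or.inl h1.1) (Or.inl h2.1) h
    rw [Finset.card_erase_of_mem hvs] at h0
    have : 0 < (s T').card := Finset.card_pos.2 ⟨v, hvs⟩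
    omega
  have hf3 : ∀ T T', (∃ z, E T z) → E T' (φ T v) →
      ((e T).filter (fun x => ¬ S (φ T x))).card + (k T').card ≤ (e T').card := by
    intro T T' hT hT'
    have hsub : k T' ⊆ e T' := by
      intro u hu
      simp only [k, e, Finset.mem_filter, Finset.mem_univ, true_and] at hu ⊢
      exact hu.1
    have h0 : ((e T).filter (fun x => ¬ S (φ T x))).card ≤ (e T' \ k T').card := by
      refine Finset.card_le_card_of_injOn (φ T) ?_ ?_
      · intro x hx
        have hx' : E T x ∧ ¬ S (φ T x) := by simpa [e] using hx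
        have h1 := (hG T T' hT hT' x hx'.1).resolve_left hx'.2
        have h2 := (hφ1 T x hx'.1).2
        rw [Finset.mem_coe, Finset.mem_sdiff]
        simp only [k, e, Finset.mem_filter, Finset.mem_univ, true_and]
        exact ⟨h1, fun h => h2 h.2⟩
      · intro x hx x' hx' h
        have h1 : E T x ∧ ¬ S (φ T x) := by simpa [e] using hx
        have h2 : E T x' ∧ ¬ S (φ T x') := by simpa [e] using hx'
        exact hinj T x x' (Or.inl h1.1) (Or.inl h2.1) h
    rw [Finset.card_sdiff_of_subset hsub] at h0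
    have := Finset.card_le_card hsub
    omega
  -- choose `τ`
  have hτ2 : ∃ τ : L → L, ∀ T, (∃ z, E T z) → E (τ T) (φ T v) := by
    refine ⟨fun T => if h : ∃ T', E T' (φ T v) then h.choose else T, ?_⟩
    intro T hT
    obtain ⟨T', hT', _⟩ := hτ T hT
    have hex : ∃ T', E T' (φ T v) := ⟨T', hT'⟩
    simp only [dif_pos hex]
    exact hex.choose_spec
  obtain ⟨τ, hτ3⟩ := hτ2
  -- a used leaf with maximal weight
  obtain ⟨T0, hT0⟩ : ∃ T0, ∃ z, E T0 z := by
    obtain ⟨y, hy⟩ := hnb v
    obtain ⟨T, hT⟩ := (hSE y).resolve_left (hY y hy)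
    exact ⟨T, y, hT⟩
  obtain ⟨T, hTm, hmax⟩ := Finset.exists_max_image
    (Finset.univ.filter (fun T : L => ∃ z, E T z)) (fun T => (e T).card + (k (τ T)).card)
    ⟨T0, by simp [hT0]⟩
  have hT : ∃ z, E T z := (Finset.mem_filter.1 hTm).2
  have h1 := hτ3 T hT
  have hT1 : ∃ z, E (τ T) z := ⟨_, h1⟩
  have h2 := hτ3 (τ T) hT1
  have h3 := hmax (τ T) (by simp [hT1])
  have h4' := hf2 T (τ T) hT h1
  have h5 := hf3 T (τ T) hT h1
  have h6 := hf1 (τ T) (τ (τ T)) hT1 h2
  have h7 : (e T).card = ((e T).filter (fun x => S (φ T x))).card +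
      ((e T).filter (fun x => ¬ S (φ T x))).card :=
    (Finset.card_filter_add_card_filter_not (fun x => S (φ T x))).symm
  omega

end core

end Pool.Agent.Helper28.R4
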